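import Pool.Agent.H26.LV.TargetsAri

set_option autoImplicit false

open Finset Polynomial

namespace Pool.Agent.H46.LV

open Pool.Agent.H26.LV

theorem ee_add (q : ℕ) (a b : ℤ) : ee q (a + b) = ee q a * ee q b := by
  unfold ee
  rw [← Complex.exp_add]
  congr 1
  push_cast
  ring

theorem ee_eq_one {q : ℕ} (hq : 0 < q) (n : ℤ) : ee q n = 1 ↔ (q : ℤ) ∣ n := by
  unfold ee
  rw [Complex.exp_eq_one_iff]
  have hq' : (q : ℂ) ≠ 0 := by exact_mod_cast hq.ne'
  have hpi : (2 * (Real.pi : ℂ) * Complex.I) ≠ 0 := Complex.two_pi_I_ne_zero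
  constructor
  · rintro ⟨k, hk⟩
    refine ⟨k, ?_⟩
    have h1 : (n : ℂ) / q = k := by
      have : 2 * (Real.pi : ℂ) * Complex.I * ((n : ℂ) / q) = 2 * (Real.pi : ℂ) * Complex.I * k := by
        rw [hk]; ring
      exact mul_left_cancel₀ hpi this
    rw [div_eq_iff hq'] at h1
    have h2 : (n : ℂ) = ((q * k : ℤ) : ℂ) := by
      rw [h1]; push_cast; ring
    exact_mod_cast h2
  · rintro ⟨k, rfl⟩
    refine ⟨k, ?_⟩
    push_cast
    field_simp

theorem ee_norm (q : ℕ) (n : ℤ) : ‖ee q n‖ = 1 := by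
  unfold ee
  have : (2 * (Real.pi : ℂ) * Complex.I * ((n : ℂ) / (q : ℂ))) =
      ((2 * Real.pi * ((n : ℝ) / (q : ℝ)) : ℝ) : ℂ) * Complex.I := by
    push_cast
    ring
  rw [this, Complex.norm_exp_ofReal_mul_I]

theorem ee_congr {q : ℕ} (hq : 0 < q) {a b : ℤ} (h : (q : ℤ) ∣ a - b) : ee q a = ee q b := by
  have : a = b + (a - b) := by ring
  rw [this, ee_add, (ee_eq_one hq _).2 h, mul_one]

theorem ee_pow (q : ℕ) (a : ℤ) (n : ℕ) : ee q a ^ n = ee q (a * n) := by
  unfold ee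
  rw [← Complex.exp_nat_mul]
  congr 1
  push_cast
  ring

theorem sum_range_mul {M : Type*} [AddCommMonoid M] (P Q : ℕ) (f : ℕ → M) :
    ∑ z ∈ range (P * Q), f z = ∑ b ∈ range Q, ∑ a ∈ range P, f (a + P * b) := by
  induction Q with
  | zero => simp
  | succ Q ih =>
    rw [Nat.mul_succ, Finset.sum_range_add, ih, Finset.sum_range_succ]
    congr 1
    apply Finset.sum_congr rfl
    intro x _
    rw [add_comm]

theorem pf_DSR : T_DSR := by
  intro p m i v G hp hiv hvm hV h1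
  have hp0 : 0 < p := hp.pos
  have hpm : 0 < p ^ m := pow_pos hp0 _
  have hsplit : p ^ (m - i) = p ^ (m - v) * p ^ (v - i) := by
    rw [← pow_add]
    congr 1
    omega
  have hPP : (p : ℤ) ^ m = (p : ℤ) ^ v * (p : ℤ) ^ (m - v) := by
    rw [← pow_add]
    congr 1
    omega
  refine ⟨?_, ?_⟩
  · intro hnd
    -- the linear part
    set c1 : ℤ := G.coeff 1 with hc1
    have hdv : C ((p : ℤ) ^ v) ∣ (G - C c1 * X - C (G.coeff 0)) := by
      rw [Polynomial.C_dvd_iff_dvd_coeff]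
      intro j
      rcases Nat.lt_or_ge j 2 with hj | hj
      · interval_cases j
        · simp
        · rw [coeff_sub, coeff_sub, coeff_C_mul, coeff_X_one, coeff_C, if_neg (by norm_num)]
          simp [hc1]
      · have e : (G - C c1 * X - C (G.coeff 0)).coeff j = G.coeff j := by
          rw [coeff_sub, coeff_sub, coeff_C_mul, coeff_X, coeff_C]
          rw [if_neg (by omega), if_neg (by omega)]
          ring
        rw [e]
        exact hV j hj
    obtain ⟨H, hH⟩ := hdv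
    have hG : G = C (G.coeff 0) + C c1 * X + C ((p : ℤ) ^ v) * H := by
      rw [← hH]; ring
    have hev : ∀ a b : ℕ, ee (p ^ m) (G.eval ((a + p ^ (m - v) * b : ℕ) : ℤ)) =
        ee (p ^ m) (G.eval (a : ℤ)) * ee (p ^ m) (c1 * (p : ℤ) ^ (m - v)) ^ b := by
      intro a b
      rw [ee_pow, ← ee_add]
      apply ee_congr hpm
      obtain ⟨w, hw⟩ := Polynomial.sub_dvd_eval_sub
        (((a + p ^ (m - v) * b : ℕ) : ℤ)) (a : ℤ) H
      have hx : ((a + p ^ (m - v) * b : ℕ) : ℤ) - (a : ℤ) = (p : ℤ) ^ (m - v) * b := by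
        push_cast; ring
      rw [hx] at hw
      have e1 : G.eval ((a + p ^ (m - v) * b : ℕ) : ℤ) -
          (G.eval (a : ℤ) + c1 * (p : ℤ) ^ (m - v) * (b : ℤ)) =
          (p : ℤ) ^ v * (H.eval ((a + p ^ (m - v) * b : ℕ) : ℤ) - H.eval (a : ℤ)) := by
        have hE : ∀ x : ℤ, G.eval x = G.coeff 0 + c1 * x + (p : ℤ) ^ v * H.eval x := by
          intro x
          conv_lhs => rw [hG]
          simp
        rw [hE, hE (a : ℤ)]
        push_cast
        ring
      rw [e1, hw]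
      push_cast
      rw [hPP]
      exact ⟨b * w, by ring⟩
    rw [hsplit, sum_range_mul, Finset.sum_comm]
    apply Finset.sum_eq_zero
    intro a _
    have : ∀ b ∈ range (p ^ (v - i)), ee (p ^ m) (G.eval ((a + p ^ (m - v) * b : ℕ) : ℤ)) =
        ee (p ^ m) (G.eval (a : ℤ)) * ee (p ^ m) (c1 * (p : ℤ) ^ (m - v)) ^ b := fun b _ => hev a b
    rw [Finset.sum_congr rfl this, ← Finset.mul_sum]
    have hne : ee (p ^ m) (c1 * (p : ℤ) ^ (m - v)) ≠ 1 := by
      intro h
      rw [ee_eq_one hpm] at h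
      push_cast at h
      rw [hPP] at h
      have hpz : (p : ℤ) ^ (m - v) ≠ 0 := pow_ne_zero _ (by exact_mod_cast hp0.ne')
      exact hnd ((mul_dvd_mul_iff_right hpz).1 h)
    have hpw : ee (p ^ m) (c1 * (p : ℤ) ^ (m - v)) ^ (p ^ (v - i)) = 1 := by
      rw [ee_pow, ee_eq_one hpm]
      obtain ⟨b, hb⟩ := h1
      rw [hb]
      refine ⟨b, ?_⟩
      push_cast
      have : (p : ℤ) ^ m = (p : ℤ) ^ i * (p : ℤ) ^ (m - v) * (p : ℤ) ^ (v - i) := by
        rw [← pow_add, ← pow_add]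
        congr 1
        omega
      rw [this]
      ring
    have hgs : (∑ b ∈ range (p ^ (v - i)), ee (p ^ m) (c1 * (p : ℤ) ^ (m - v)) ^ b) *
        (ee (p ^ m) (c1 * (p : ℤ) ^ (m - v)) - 1) = 0 := by
      rw [geom_sum_mul, hpw, sub_self]
    have := (mul_eq_zero.1 hgs).resolve_right (sub_ne_zero.2 hne)
    rw [this, mul_zero]
  · intro g c₀ hG
    have hP : 0 < p ^ (m - v) := pow_pos hp0 _
    have hev : ∀ a b : ℕ, ee (p ^ m) (G.eval ((a + p ^ (m - v) * b : ℕ) : ℤ)) =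
        ee (p ^ m) c₀ * ee (p ^ (m - v)) (g.eval (a : ℤ)) := by
      intro a b
      have e1 : ee (p ^ (m - v)) (g.eval (a : ℤ)) = ee (p ^ m) ((p : ℤ) ^ v * g.eval (a : ℤ)) := by
        unfold ee
        congr 1
        have hpc : (p : ℂ) ≠ 0 := by exact_mod_cast hp0.ne'
        have : ((p ^ m : ℕ) : ℂ) = (p : ℂ) ^ v * (p : ℂ) ^ (m - v) := by
          push_cast
          rw [← pow_add]
          congr 1
          omega
        rw [this]
        push_cast
        rw [mul_div_mul_left _ _ (pow_ne_zero _ hpc)]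
      rw [e1, ← ee_add]
      apply ee_congr hpm
      obtain ⟨w, hw⟩ := Polynomial.sub_dvd_eval_sub
        (((a + p ^ (m - v) * b : ℕ) : ℤ)) (a : ℤ) g
      have hx : ((a + p ^ (m - v) * b : ℕ) : ℤ) - (a : ℤ) = (p : ℤ) ^ (m - v) * b := by
        push_cast; ring
      rw [hx] at hw
      have e2 : G.eval ((a + p ^ (m - v) * b : ℕ) : ℤ) - (c₀ + (p : ℤ) ^ v * g.eval (a : ℤ)) =
          (p : ℤ) ^ v * (g.eval ((a + p ^ (m - v) * b : ℕ) : ℤ) - g.eval (a : ℤ)) := by
        rw [hG]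
        simp
        ring
      rw [e2, hw]
      push_cast
      rw [hPP]
      exact ⟨b * w, by ring⟩
    rw [hsplit, sum_range_mul]
    have : ∀ b ∈ range (p ^ (v - i)), ∑ a ∈ range (p ^ (m - v)),
        ee (p ^ m) (G.eval ((a + p ^ (m - v) * b : ℕ) : ℤ)) =
        ee (p ^ m) c₀ * ∑ a ∈ range (p ^ (m - v)), ee (p ^ (m - v)) (g.eval (a : ℤ)) := by
      intro b _
      rw [Finset.mul_sum]
      exact Finset.sum_congr rfl fun a _ => hev a b
    rw [Finset.sum_congr rfl this, Finset.sum_const, card_range]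
    unfold SS
    have hpr : (p : ℝ) ≠ 0 := by exact_mod_cast hp0.ne'
    have e3 : (p : ℝ) ^ m = (p : ℝ) ^ i * (p : ℝ) ^ (v - i) * (p : ℝ) ^ (m - v) := by
      rw [← pow_add, ← pow_add]
      congr 1
      omega
    rw [nsmul_eq_mul, norm_mul, norm_mul, norm_mul, norm_mul, ee_norm, one_mul]
    simp only [norm_div, norm_one, norm_pow, Complex.norm_natCast, Nat.cast_pow]
    rw [e3]
    field_simp

end Pool.Agent.H46.LV
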